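import Pool.Agent.H135R2.VS.Der
import Pool.Agent.U207.GB.Lie
import Pool.Agent.Y742.SP.Main
import Pool.Agent.W308.PG.YLOC

/-! Lines in a field of rational functions. -/

set_option autoImplicit false
set_option linter.overlappingInstances false
set_option linter.unusedSectionVars false

open Pool.Agent.Y742.GG Pool.Agent.Y742.SP Pool.Agent.Y742.CN Pool.Agent.Y467.CN

namespace Pool.Agent.U207.PB

variable {Ω E M : Type} [Field Ω] [CharZero Ω] [Field E] [Field M] [Algebra Ω E] [Algebra Ω M]
  [Algebra E M] [IsScalarTower Ω E M] {r : ℕ}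

/-- the functions of all the coordinates but one -/
def Lin (Ω E : Type) {M : Type} [Field Ω] [Field E] [Field M] [Algebra Ω M] [Algebra E M] {r : ℕ}
    (t : Fin r → M) (i : Fin r) : IntermediateField Ω M :=
  IntermediateField.adjoin Ω (Set.range (algebraMap E M) ∪ t '' {j | j ≠ i})

omit [CharZero Ω] [Algebra Ω E] [Algebra Ω M] [IsScalarTower Ω E M] in
theorem exists_d [CharZero E] {ι : Type} [DecidableEq ι] {t : ι → M}
    (ht : AlgebraicIndependent E t) :
    ∃ d : ι → Derivation E M M, ∀ i j, d i (t j) = if i = j then 1 else 0 := by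
  have h : ∀ i : ι, ∃ d : Derivation E M M, ∀ j, d (t j) = if i = j then 1 else 0 :=
    fun i => Pool.Agent.H135R2.VS.exists_der ht _
  choose d hd using h
  exact ⟨d, hd⟩

theorem lin_zero {t : Fin r → M} {i : Fin r} (d : Derivation E M M)
    (hd : ∀ j, j ≠ i → d (t j) = 0) {a : M} (ha : a ∈ Lin Ω E t i) : d a = 0 := by
  have h : DerAlong Ω (RingHom.id M) (fun a => d a) :=
    ⟨fun a b => map_add d a b, fun a b => by
      simp only [Derivation.leibniz, smul_eq_mul, RingHom.id_apply], fun c => by
      rw [IsScalarTower.algebraMap_apply Ω E M]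
      exact d.map_algebraMap _⟩
  have hle : Lin Ω E t i ≤ zs h := by
    rw [Lin, IntermediateField.adjoin_le_iff]
    rintro _ (⟨c, rfl⟩ | ⟨j, hj, rfl⟩)
    · exact d.map_algebraMap c
    · exact hd j hj
  exact hle ha

theorem line_double [CharZero E] {t : Fin r → M} (ht : AlgebraicIndependent E t)
    (htop : IntermediateField.adjoin E (Set.range t) = ⊤) (i : Fin r) :
    IsDoubleCoverOfLine (Lin Ω E t i) := by
  classical
  have hcM : CharZero M := charZero_of_injective_algebraMap (algebraMap Ω M).injective
  obtain ⟨d, hd⟩ := exists_d ht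
  have hdi : d i (t i) = 1 := by rw [hd, if_pos rfl]
  have hti : t i ≠ 0 := by
    intro h0
    rw [h0, map_zero] at hdi
    exact zero_ne_one hdi
  refine ⟨t i ^ 2, t i, Polynomial.X, ?_, by rw [Polynomial.aeval_X], ?_, ?_, ?_⟩
  · intro halg
    have h1 := Pool.Agent.U207.GB.der_algF ((d i).restrictScalars Ω) (Lin Ω E t i)
      (fun a ha => lin_zero (d i) (fun j hj => by rw [hd, if_neg (Ne.symm hj)]) ha) halg
    have h2 : d i (t i ^ 2) = 0 := h1
    rw [Derivation.leibniz_pow, hdi, smul_eq_mul, mul_one] at h2
    have h3 : (2 : M) * t i = 0 := by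
      have h4 : (2 : ℕ) • t i ^ (2 - 1) = 2 * t i := by
        rw [nsmul_eq_mul]
        norm_num
      rw [← h4]
      exact h2
    exact (mul_ne_zero two_ne_zero hti) h3
  · exact Polynomial.natDegree_X.le.trans (by norm_num)
  · rintro ⟨c, R, h⟩
    have h1 := congrArg Polynomial.natDegree h
    by_cases hc : c = 0
    · rw [hc, map_zero, zero_mul] at h
      exact Polynomial.X_ne_zero h
    · rw [Polynomial.natDegree_X, Polynomial.natDegree_C_mul hc, Polynomial.natDegree_pow] at h1
      omega
  · rw [eq_top_iff]
    intro z _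
    have hz : z ∈ IntermediateField.adjoin E (Set.range t) := by rw [htop]; trivial
    rw [IntermediateField.mem_adjoin_range_iff] at hz
    obtain ⟨P, Q, rfl⟩ := hz
    have hmem : ∀ P : MvPolynomial (Fin r) E, MvPolynomial.aeval t P ∈
        IntermediateField.adjoin (Lin Ω E t i) {t i ^ 2, t i} := by
      intro P
      induction P using MvPolynomial.induction_on with
      | C c =>
        rw [MvPolynomial.aeval_C]
        have h1 : algebraMap E M c ∈ Lin Ω E t i :=
          IntermediateField.subset_adjoin _ _ (Or.inl ⟨c, rfl⟩)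
        exact (IntermediateField.adjoin (Lin Ω E t i) {t i ^ 2, t i}).algebraMap_mem ⟨_, h1⟩
      | add p q hp hq =>
        rw [map_add]
        exact add_mem hp hq
      | mul_X p j hp =>
        rw [map_mul, MvPolynomial.aeval_X]
        refine mul_mem hp ?_
        by_cases hj : j = i
        · rw [hj]
          exact IntermediateField.subset_adjoin _ _ (Set.mem_insert_of_mem _ rfl)
        · have h1 : t j ∈ Lin Ω E t i :=
            IntermediateField.subset_adjoin _ _ (Or.inr ⟨j, hj, rfl⟩)
          exact (IntermediateField.adjoin (Lin Ω E t i) {t i ^ 2, t i}).algebraMap_mem ⟨_, h1⟩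
    exact div_mem (hmem P) (hmem Q)

theorem alg_of_all [CharZero E] {t : Fin r → M} (ht : IsTranscendenceBasis E t) {h : M}
    (hh : ∀ i, IsAlgebraic (Lin Ω E t i) h) : IsAlgebraic E h := by
  classical
  by_contra hcon
  obtain ⟨D, hD⟩ := Pool.Agent.H135R2.VS.exists_der (K := E) (x := fun _ : Unit => h)
    (algebraicIndependent_unique_type_iff.2 hcon) (fun _ => 1)
  obtain ⟨d, hd⟩ := exists_d ht.1
  have h1 := Pool.Agent.W308.PG.YLOC.expandK t d ht hd D
  have h2 : D h = 0 := by
    rw [h1, Pool.Agent.W308.PG.YLOC.der_sum_apply]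
    refine Finset.sum_eq_zero fun i _ => ?_
    rw [Derivation.smul_apply]
    have h3 := Pool.Agent.U207.GB.der_algF ((d i).restrictScalars Ω) (Lin Ω E t i)
      (fun a ha => lin_zero (d i) (fun j hj => by rw [hd, if_neg (Ne.symm hj)]) ha) (hh i)
    have h4 : d i h = 0 := h3
    rw [h4, smul_zero]
  rw [hD ()] at h2
  exact one_ne_zero h2

/-- a function on `X` which is algebraic over coordinates which remain independent on the members
of a family, and is constant on the members of the family, is constant -/
theorem const_of_family {K : Type} [Field K] [Algebra Ω K] [CharZero E] {ι : Type} [Finite ι]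
    (y : ι → K) (θ : K →ₐ[Ω] M) (hθ : AlgebraicIndependent E (fun s => θ (y s))) {g : K}
    (hg : IsAlgebraic (Algebra.adjoin Ω (Set.range y)) g) (hg' : IsAlgebraic E (θ g)) :
    IsAlgebraic Ω g := by
  classical
  let := Fintype.ofFinite ι
  by_contra hcon
  obtain ⟨D, hD⟩ := Pool.Agent.H135R2.VS.exists_der (K := Ω) (x := fun _ : Unit => g)
    (algebraicIndependent_unique_type_iff.2 hcon) (fun _ => 1)
  obtain ⟨d, hd⟩ := exists_d hθ
  have hdg : ∀ s, d s (θ g) = 0 := by
    intro s
    refine Pool.Agent.U207.GB.der_alg (d s) ∅ (fun a ha => absurd ha (Set.notMem_empty a)) ?_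
    exact hg'.extendScalars (algebraMap E (Algebra.adjoin E (∅ : Set M))).injective
  let η : K → M := fun a => θ (D a) - ∑ s, θ (D (y s)) * d s (θ a)
  have hη : DerAlong Ω (θ : K →+* M) η := by
    refine ⟨fun a b => ?_, fun a b => ?_, fun c => ?_⟩
    · simp only [η, map_add, mul_add, Finset.sum_add_distrib]
      ring
    · simp only [η, map_mul, Derivation.leibniz, smul_eq_mul, map_add, mul_add,
        Finset.sum_add_distrib, mul_sub, Finset.mul_sum]
      have h1 : ∀ a b : K, ∑ s, θ (D (y s)) * (θ a * d s (θ b)) =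
          ∑ s, θ a * (θ (D (y s)) * d s (θ b)) := fun a b =>
        Finset.sum_congr rfl fun s _ => by ring
      rw [h1, h1]
      simp only [RingHom.coe_coe]
      ring
    · simp only [η]
      rw [D.map_algebraMap, map_zero, AlgHom.commutes, IsScalarTower.algebraMap_apply Ω E M]
      simp only [Derivation.map_algebraMap, mul_zero, Finset.sum_const_zero, sub_zero]
  have h0 : η g = 0 := by
    refine along_alg hη ?_
    obtain ⟨p, hp, hpa⟩ := hg
    have hle : Algebra.adjoin Ω (Set.range y) ≤ (zs hη).toSubalgebra := by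
      rw [Algebra.adjoin_le_iff]
      rintro _ ⟨s, rfl⟩
      change η (y s) = 0
      simp only [η, hd]
      rw [Finset.sum_eq_single s]
      · rw [if_pos rfl, mul_one, sub_self]
      · intro s' _ hs'
        rw [if_neg hs', mul_zero]
      · intro h
        exact absurd (Finset.mem_univ s) h
    refine ⟨p.map (Subalgebra.inclusion hle).toRingHom, ?_, ?_⟩
    · rw [Ne, Polynomial.map_eq_zero_iff (Subalgebra.inclusion_injective hle)]
      exact hp
    · rw [Polynomial.aeval_def, Polynomial.eval₂_map]
      exact hpa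
  have h1 : η g = 1 := by
    simp only [η, hdg, mul_zero, Finset.sum_const_zero, sub_zero]
    rw [hD (), map_one]
  rw [h1] at h0
  exact one_ne_zero h0

end Pool.Agent.U207.PB
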