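import Pool.Agent.U207.PB.Pull
import Pool.Agent.U207.PB.Line

/-! Specialness of varieties covered by unirational subvarieties which dominate the common base of
fibrations in curves of genus at most one. -/

set_option autoImplicit false
set_option linter.overlappingInstances false
set_option linter.unusedSectionVars false

open FF Pool.Agent.Y742.GG Pool.Agent.Y742.SP Pool.Agent.W602.GT Pool.Agent.W603.LV

namespace Pool.Agent.U207.PB

/-- ratios of the sections of a Bogomolov sheaf are constant on curves of genus at most one -/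
theorem ratio_alg {Ω K : Type} [Field Ω] [CharZero Ω] [Field K] [Algebra Ω K] {w : ℕ}
    (hfg : ∃ S : Finset K, IntermediateField.adjoin Ω (S : Set K) = ⊤)
    (htr : Algebra.trdeg Ω K = w) (L : IntermediateField Ω K)
    (hL : IsDoubleCoverOfLine L ∨ IsEllipticTorsor L) {p : ℕ}
    (θ : AlternatingMap K (Derivation Ω K K) K (Fin p)) (hθ : θ ≠ 0) (N : ℕ)
    (f : Fin (p + 1) → K)
    (hreg : ∀ P : Place Ω K, Divisorial w P → ∀ E : Fin p → Derivation Ω K K,
      (∀ i, DerReg P (E i)) → ∀ j, P.Reg (f j * θ E ^ N)) (hf0 : f 0 ≠ 0) (j : Fin (p + 1)) :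
    IsAlgebraic L (f j / f 0) := by
  have hc : IsCurve L ∧ ∃ D : Derivation Ω K K, D ≠ 0 ∧ (∀ a ∈ L, D a = 0) ∧
      ∀ P : Place Ω K, TrivOn P L → GoodAt P L D := by
    rcases hL with h | h
    · exact Pool.Agent.Y37.SP.sDouble sGoodAll Ω K L h
    · exact Pool.Agent.Y109.SP.sTorsor (Pool.Agent.Y21.SP.sTorA sGoodAll) Ω K L h hfg
  obtain ⟨hcur, D, hD, hDL, hgood⟩ := hc
  have hcur' := hcur
  obtain ⟨t, S, ht, halg, -⟩ := hcur'
  obtain ⟨n, y, hy, hn⟩ := Pool.Agent.Y689.SP.basis_of_curve w htr L t ht halg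
  subst hn
  exact Pool.Agent.Y590.SP.sForm Pool.Agent.Y954.SP.sPole Pool.Agent.Y86.SP.sDiv Ω K L n y hy
    hcur D hD hDL hgood p θ hθ N f hreg hf0 j

/-- transcendence degrees of finitely generated fields are finite -/
theorem exists_trdeg {Ω K : Type} [Field Ω] [Field K] [Algebra Ω K]
    (hfg : ∃ S : Finset K, IntermediateField.adjoin Ω (S : Set K) = ⊤) :
    ∃ (w : ℕ) (y : Fin w → K), Algebra.trdeg Ω K = w ∧ IsTranscendenceBasis Ω y := by
  classical
  obtain ⟨S, hS⟩ := hfg
  have halg : Algebra.IsAlgebraic (Algebra.adjoin Ω (S : Set K)) K := by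
    rw [← IntermediateField.isAlgebraic_adjoin_iff_top, hS]
    exact ⟨fun a => isAlgebraic_algebraMap (⟨a, trivial⟩ : (⊤ : IntermediateField Ω K))⟩
  obtain ⟨s, hs, hs'⟩ := exists_isTranscendenceBasis_subset (R := Ω) (S : Set K)
  have hfin : s.Finite := S.finite_toSet.subset hs
  have : Finite s := hfin
  have htr : Algebra.trdeg Ω K = (Nat.card s : ℕ) := by
    rw [← hs'.cardinalMk_eq_trdeg, Nat.cast_card]
  let e := Finite.equivFin s
  exact ⟨Nat.card s, fun i => (e.symm i : K), htr, hs'.comp_equiv e.symm⟩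

/-- **Specialness.** -/
theorem special_cov {Ω K E M I : Type} [Field Ω] [CharZero Ω] [Field K] [Algebra Ω K] [Field E]
    [Field M] [Algebra Ω E] [Algebra Ω M] [Algebra E M] [IsScalarTower Ω E M]
    (hK : ∃ S : Finset K, IntermediateField.adjoin Ω (S : Set K) = ⊤)
    (hM : ∃ S : Finset M, IntermediateField.adjoin Ω (S : Set M) = ⊤)
    (L : I → IntermediateField Ω K) (hL : ∀ i, IsDoubleCoverOfLine (L i) ∨ IsEllipticTorsor (L i))
    {ι : Type} [Finite ι] (y : ι → K)
    (hinv : ∀ a : K, (∀ i, IsAlgebraic (L i) a) → IsAlgebraic (Algebra.adjoin Ω (Set.range y)) a)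
    {r : ℕ} {t : Fin r → M} (ht : IsTranscendenceBasis E t)
    (htop : IntermediateField.adjoin E (Set.range t) = ⊤) (θ : K →ₐ[Ω] M)
    (hθ : AlgebraicIndependent E (fun s => θ (y s))) :
    ∃ w : ℕ, Algebra.trdeg Ω K = w ∧ Special Ω K w (fun _ => False) := by
  classical
  have hcE : CharZero E := charZero_of_injective_algebraMap (algebraMap Ω E).injective
  have hcM : CharZero M := charZero_of_injective_algebraMap (algebraMap Ω M).injective
  obtain ⟨w, x, htr, hx⟩ := exists_trdeg hK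
  obtain ⟨w', -, htrM, -⟩ := exists_trdeg hM
  refine ⟨w, htr, fun p hp hbog => ?_⟩
  obtain ⟨τ, hτ, n, hn, f, -, hreg, hf0, hind⟩ := hbog
  have hreg' : ∀ P : Place Ω K, Divisorial w P → ∀ E : Fin p → Derivation Ω K K,
      (∀ i, DerReg P (E i)) → ∀ j, P.Reg (f j * τ E ^ n) :=
    fun P hP D hD j => hreg P hP not_false D hD j
  obtain ⟨j, hj⟩ : ∃ j : Fin p, j = ⟨0, by omega⟩ := ⟨_, rfl⟩
  have hg : IsAlgebraic (Algebra.adjoin Ω (Set.range y)) (f j.succ / f 0) :=
    hinv _ fun i => ratio_alg hK htr (L i) (hL i) τ hτ n f hreg' hf0 j.succ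
  obtain ⟨S, hS⟩ := hK
  let : Algebra K M := (θ : K →+* M).toAlgebra
  have : IsScalarTower Ω K M := IsScalarTower.of_algebraMap_eq' θ.comp_algebraMap.symm
  have hder : ∀ i : Fin w, ∃ D : Derivation Ω K K, ∀ j, D (x j) = if i = j then 1 else 0 :=
    fun i => Pool.Agent.H135R2.VS.exists_der hx.1 _
  choose D hD using hder
  have hg' : IsAlgebraic E (θ (f j.succ / f 0)) := by
    refine alg_of_all (Ω := Ω) ht fun i => ?_
    have h1 := ratio_alg hM htrM (Lin Ω E t i) (Or.inl (line_double ht.1 htop i))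
      (pull M x D τ) (pull_ne x D hx hD hτ) n (fun j => algebraMap K M (f j))
      (fun P hP D' hD' j => pull_reg S.finite_toSet hS htr htrM x D hx hD τ hn (f j)
        (fun P hP D hD => hreg' P hP D hD j) P hP D' hD')
      (by rw [Ne, map_eq_zero]; exact hf0) j.succ
    rw [map_div₀]
    exact h1
  exact hind.transcendental j (const_of_family y θ hθ hg hg')

end Pool.Agent.U207.PB
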