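import Pool.Agent.U207.PB.Spec

/-! Specialness, for fields of rational functions. -/

set_option autoImplicit false
set_option linter.overlappingInstances false
set_option linter.unusedSectionVars false

open Pool.Agent.Y742.GG Pool.Agent.Y742.SP Pool.Agent.W602.GT MvPolynomial

namespace Pool.Agent.U207.PB

variable {Ω E : Type} [Field Ω] [CharZero Ω] [Field E] [Algebra Ω E] {r : ℕ}

instance tower_frac : IsScalarTower Ω E (FractionRing (MvPolynomial (Fin r) E)) := by
  refine IsScalarTower.of_algebraMap_eq fun c => ?_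
  rw [IsScalarTower.algebraMap_apply Ω (MvPolynomial (Fin r) E)
      (FractionRing (MvPolynomial (Fin r) E)),
    IsScalarTower.algebraMap_apply E (MvPolynomial (Fin r) E)
      (FractionRing (MvPolynomial (Fin r) E)),
    IsScalarTower.algebraMap_apply Ω E (MvPolynomial (Fin r) E)]

/-- the coordinates -/
noncomputable def tf (E : Type) [Field E] (r : ℕ) : Fin r → FractionRing (MvPolynomial (Fin r) E) :=
  fun i => algebraMap (MvPolynomial (Fin r) E) _ (X i)

theorem aeval_tf (P : MvPolynomial (Fin r) E) :
    aeval (tf E r) P = algebraMap (MvPolynomial (Fin r) E) _ P := by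
  have h := aeval_algebraMap_apply (FractionRing (MvPolynomial (Fin r) E)) (X (R := E) (σ := Fin r)) P
  rw [aeval_X_left_apply] at h
  exact h

theorem top_tf : IntermediateField.adjoin E (Set.range (tf E r)) = ⊤ := by
  rw [eq_top_iff]
  intro z _
  rw [IntermediateField.mem_adjoin_range_iff]
  obtain ⟨P, Q, -, rfl⟩ := IsFractionRing.div_surjective (A := MvPolynomial (Fin r) E) z
  exact ⟨P, Q, by rw [aeval_tf, aeval_tf]⟩

theorem basis_tf : IsTranscendenceBasis E (tf E r) := by
  rw [isTranscendenceBasis_iff_algebraicIndependent_isAlgebraic]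
  refine ⟨?_, ?_⟩
  · rw [algebraicIndependent_iff_injective_aeval]
    intro P Q h
    rw [aeval_tf, aeval_tf] at h
    exact IsFractionRing.injective _ _ h
  · rw [← IntermediateField.isAlgebraic_adjoin_iff_top, top_tf]
    exact ⟨fun a => isAlgebraic_algebraMap (⟨a, trivial⟩ : (⊤ : IntermediateField E _))⟩

theorem fg_frac (hE : ∃ S : Finset E, IntermediateField.adjoin Ω (S : Set E) = ⊤) :
    ∃ S : Finset (FractionRing (MvPolynomial (Fin r) E)),
      IntermediateField.adjoin Ω (S : Set (FractionRing (MvPolynomial (Fin r) E))) = ⊤ := by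
  classical
  obtain ⟨S, hS⟩ := hE
  refine ⟨S.image (algebraMap E _) ∪ Finset.univ.image (tf E r), ?_⟩
  rw [Finset.coe_union, Finset.coe_image, Finset.coe_image, Finset.coe_univ, Set.image_univ]
  obtain ⟨A, hA⟩ : ∃ A : IntermediateField Ω (FractionRing (MvPolynomial (Fin r) E)),
    A = IntermediateField.adjoin Ω (algebraMap E _ '' (S : Set E) ∪ Set.range (tf E r)) := ⟨_, rfl⟩
  rw [← hA]
  have h1 : ∀ e : E, algebraMap E (FractionRing (MvPolynomial (Fin r) E)) e ∈ A := by
    intro e
    have h2 : IntermediateField.adjoin Ω (S : Set E) ≤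
        A.comap (IsScalarTower.toAlgHom Ω E (FractionRing (MvPolynomial (Fin r) E))) := by
      rw [IntermediateField.adjoin_le_iff]
      intro s hs
      change algebraMap E _ s ∈ A
      rw [hA]
      exact IntermediateField.subset_adjoin _ _ (Or.inl ⟨s, hs, rfl⟩)
    have h3 : e ∈ IntermediateField.adjoin Ω (S : Set E) := by rw [hS]; trivial
    exact h2 h3
  have h4 : ∀ P : MvPolynomial (Fin r) E, algebraMap (MvPolynomial (Fin r) E)
      (FractionRing (MvPolynomial (Fin r) E)) P ∈ A := by
    intro P
    rw [← aeval_tf]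
    induction P using MvPolynomial.induction_on with
    | C c =>
      rw [aeval_C]
      exact h1 c
    | add p q hp hq =>
      rw [map_add]
      exact add_mem hp hq
    | mul_X p j hp =>
      rw [map_mul, aeval_X]
      refine mul_mem hp ?_
      rw [hA]
      exact IntermediateField.subset_adjoin _ _ (Or.inr ⟨j, rfl⟩)
  rw [eq_top_iff]
  intro z _
  obtain ⟨P, Q, -, rfl⟩ := IsFractionRing.div_surjective (A := MvPolynomial (Fin r) E) z
  exact div_mem (h4 P) (h4 Q)

/-- **Specialness of varieties covered by unirational subvarieties which dominate the common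
base.** -/
theorem special_main {K I : Type} [Field K] [Algebra Ω K]
    (hK : ∃ S : Finset K, IntermediateField.adjoin Ω (S : Set K) = ⊤)
    (hE : ∃ S : Finset E, IntermediateField.adjoin Ω (S : Set E) = ⊤)
    (L : I → IntermediateField Ω K) (hL : ∀ i, IsDoubleCoverOfLine (L i) ∨ IsEllipticTorsor (L i))
    {N : ℕ} (x : Fin N → K) (S : Set (Fin N))
    (hinv : ∀ a : K, (∀ i, IsAlgebraic (L i) a) → IsAlgebraic (Algebra.adjoin Ω (x '' S)) a)
    (θ : K →ₐ[Ω] FractionRing (MvPolynomial (Fin r) E))
    (hθ : AlgebraicIndependent E (fun s : S => θ (x s))) :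
    ∃ w : ℕ, Algebra.trdeg Ω K = w ∧ Special Ω K w (fun _ => False) := by
  refine special_cov hK (fg_frac hE) L hL (fun s : S => x s) (fun a ha => ?_) basis_tf top_tf θ hθ
  have h := hinv a ha
  rwa [Set.image_eq_range] at h

end Pool.Agent.U207.PB
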