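import Pool.Agent.Y216.SV.Bog
import Pool.Agent.H135R2.VS.Der

/-! Pull-back of Bogomolov sheaves: varieties dominated by special varieties are special. -/

set_option autoImplicit false
set_option linter.overlappingInstances false
set_option linter.unusedSectionVars false

open FF Pool.Agent.W603.LV Pool.Agent.W602.GT Pool.Agent.W308.PG.YLOC

namespace Pool.Agent.U207.PB

variable {k K L : Type} [Field k] [CharZero k] [Field K] [Field L] [Algebra k K] [Algebra k L]
  [Algebra K L] [IsScalarTower k K L] {d p : ℕ}

/-- evaluation of vector fields at a function -/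
noncomputable def ev (k : Type) {L : Type} [Field k] [Field L] [Algebra k L] (f : L) :
    Derivation k L L →ₗ[L] L where
  toFun D := D f
  map_add' _ _ := rfl
  map_smul' _ _ := rfl

/-- the pull-back as a multilinear map -/
noncomputable def mpull (L : Type) [Field L] [Algebra k L] [Algebra K L] (x : Fin d → K)
    (E : Fin d → Derivation k K K) (θ : AlternatingMap K (Derivation k K K) K (Fin p)) :
    MultilinearMap L (fun _ : Fin p => Derivation k L L) L :=
  ∑ φ : Fin p → Fin d, algebraMap K L (θ fun a => E (φ a)) •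
    (MultilinearMap.mkPiAlgebra L (Fin p) L).compLinearMap
      (fun a => ev k (algebraMap K L (x (φ a))))

omit [IsScalarTower k K L] in
theorem mpull_apply (x : Fin d → K) (E : Fin d → Derivation k K K)
    (θ : AlternatingMap K (Derivation k K K) K (Fin p)) (D : Fin p → Derivation k L L) :
    mpull L x E θ D = ∑ φ : Fin p → Fin d, algebraMap K L (θ fun a => E (φ a)) *
      ∏ a, D a (algebraMap K L (x (φ a))) := by
  rw [mpull, sum_apply]
  refine Finset.sum_congr rfl fun φ _ => ?_
  rw [smul_apply, MultilinearMap.compLinearMap_apply,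
    MultilinearMap.mkPiAlgebra_apply, smul_eq_mul]
  rfl

/-- the pull-back of a form -/
noncomputable def pull (L : Type) [Field L] [Algebra k L] [Algebra K L] [CharZero L]
    (x : Fin d → K) (E : Fin d → Derivation k K K)
    (θ : AlternatingMap K (Derivation k K K) K (Fin p)) :
    AlternatingMap L (Derivation k L L) L (Fin p) :=
  { mpull L x E θ with
    map_eq_zero_of_eq' := by
      intro D a b hab hne
      change mpull L x E θ D = 0
      have hDs : ∀ c, D (Equiv.swap a b c) = D c := by
        intro c
        rw [Equiv.swap_apply_def]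
        split_ifs with h1 h2
        · rw [h1, hab]
        · rw [h2, hab]
        · rfl
      have h1 : mpull L x E θ D = - mpull L x E θ D := by
        rw [mpull_apply, ← Finset.sum_neg_distrib]
        refine Fintype.sum_equiv (Equiv.arrowCongr (Equiv.swap a b) (Equiv.refl (Fin d))) _ _
          fun φ => ?_
        have h2 : θ (fun c => E ((Equiv.arrowCongr (Equiv.swap a b) (Equiv.refl (Fin d))) φ c)) =
            - θ (fun c => E (φ c)) := by
          have h3 := θ.map_swap (fun c => E (φ c)) hne
          rw [← h3]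
          rfl
        have h4 : ∏ c, D c (algebraMap K L
            (x ((Equiv.arrowCongr (Equiv.swap a b) (Equiv.refl (Fin d))) φ c))) =
            ∏ c, D c (algebraMap K L (x (φ c))) := by
          rw [← Equiv.prod_comp (Equiv.swap a b) fun c => D c (algebraMap K L (x (φ c)))]
          refine Finset.prod_congr rfl fun c _ => ?_
          rw [hDs]
          rfl
        rw [h2, h4, map_neg, neg_mul, neg_neg]
      exact self_eq_neg.1 h1 }

theorem pull_apply [CharZero L] (x : Fin d → K) (E : Fin d → Derivation k K K)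
    (θ : AlternatingMap K (Derivation k K K) K (Fin p)) (D : Fin p → Derivation k L L) :
    pull L x E θ D = ∑ φ : Fin p → Fin d, algebraMap K L (θ fun a => E (φ a)) *
      ∏ a, D a (algebraMap K L (x (φ a))) := mpull_apply x E θ D

/-- expansion of a form -/
theorem form_expand (z : Fin d → K) (G : Fin d → Derivation k K K)
    (hz : IsTranscendenceBasis k z) (hG : ∀ i j, G i (z j) = if i = j then 1 else 0)
    (θ : AlternatingMap K (Derivation k K K) K (Fin p)) (D : Fin p → Derivation k K K) :
    θ D = ∑ ψ : Fin p → Fin d, (∏ a, D a (z (ψ a))) * θ fun a => G (ψ a) := by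
  have h1 : D = fun a => ∑ c, D a (z c) • G c := by
    funext a
    exact expandK z G hz hG (D a)
  have h2 := θ.toMultilinearMap.map_sum (fun a c => D a (z c) • G c)
  conv_lhs => rw [h1]
  refine h2.trans (Finset.sum_congr rfl fun ψ _ => ?_)
  exact θ.toMultilinearMap.map_smul_univ (fun a => D a (z (ψ a))) fun a => G (ψ a)

/-- the pull-back does not depend on the frame -/
theorem pull_frame [CharZero L] (x : Fin d → K) (E : Fin d → Derivation k K K)
    (hx : IsTranscendenceBasis k x) (hE : ∀ i j, E i (x j) = if i = j then 1 else 0)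
    (z : Fin d → K) (G : Fin d → Derivation k K K)
    (hz : IsTranscendenceBasis k z) (hG : ∀ i j, G i (z j) = if i = j then 1 else 0)
    (θ : AlternatingMap K (Derivation k K K) K (Fin p)) (D : Fin p → Derivation k L L) :
    pull L x E θ D = pull L z G θ D := by
  classical
  rw [pull_apply, pull_apply]
  have h1 : ∀ φ : Fin p → Fin d, algebraMap K L (θ fun a => E (φ a)) *
      ∏ a, D a (algebraMap K L (x (φ a))) = ∑ ψ : Fin p → Fin d,
        algebraMap K L (θ fun a => G (ψ a)) *
          ∏ a, (algebraMap K L (E (φ a) (z (ψ a))) * D a (algebraMap K L (x (φ a)))) := by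
    intro φ
    rw [form_expand z G hz hG θ fun a => E (φ a), map_sum, Finset.sum_mul]
    refine Finset.sum_congr rfl fun ψ _ => ?_
    rw [map_mul, map_prod, Finset.prod_mul_distrib]
    ring
  have h2 : ∀ ψ : Fin p → Fin d, algebraMap K L (θ fun a => G (ψ a)) *
      ∏ a, D a (algebraMap K L (z (ψ a))) = ∑ φ : Fin p → Fin d,
        algebraMap K L (θ fun a => G (ψ a)) *
          ∏ a, (algebraMap K L (E (φ a) (z (ψ a))) * D a (algebraMap K L (x (φ a)))) := by
    intro ψ
    rw [← Finset.mul_sum]
    congr 1
    have h3 := Finset.prod_univ_sum (fun _ : Fin p => (Finset.univ : Finset (Fin d)))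
      (fun a i => algebraMap K L (E i (z (ψ a))) * D a (algebraMap K L (x i)))
    rw [Fintype.piFinset_univ] at h3
    rw [← h3]
    refine Finset.prod_congr rfl fun a _ => ?_
    exact expand x E hx hE (D a) (z (ψ a))
  rw [Finset.sum_congr rfl fun φ _ => h1 φ, Finset.sum_congr rfl fun ψ _ => h2 ψ,
    Finset.sum_comm]

/-- the pull-back is not zero -/
theorem pull_ne [CharZero L] (x : Fin d → K) (E : Fin d → Derivation k K K)
    (hx : IsTranscendenceBasis k x) (hE : ∀ i j, E i (x j) = if i = j then 1 else 0)
    {θ : AlternatingMap K (Derivation k K K) K (Fin p)} (hθ : θ ≠ 0) : pull L x E θ ≠ 0 := by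
  classical
  obtain ⟨D₀, hD₀⟩ : ∃ D₀, θ D₀ ≠ 0 := by
    by_contra hcon
    push Not at hcon
    exact hθ (AlternatingMap.ext hcon)
  rw [form_expand x E hx hE] at hD₀
  obtain ⟨φ, -, hφ⟩ := Finset.exists_ne_zero_of_sum_ne_zero hD₀
  have hφ' : θ (fun a => E (φ a)) ≠ 0 := right_ne_zero_of_mul hφ
  have hxL : AlgebraicIndependent k (fun i => algebraMap K L (x i)) :=
    hx.1.map' (f := IsScalarTower.toAlgHom k K L) (algebraMap K L).injective
  have hder : ∀ i : Fin d, ∃ D : Derivation k L L, ∀ j, D (algebraMap K L (x j)) =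
      if i = j then 1 else 0 := fun i => Pool.Agent.H135R2.VS.exists_der hxL _
  choose D hD using hder
  intro h0
  have h1 : pull L x E θ (fun a => D (φ a)) = 0 := by rw [h0]; rfl
  rw [pull_apply, Finset.sum_eq_single φ] at h1
  · rw [Finset.prod_eq_one fun a _ => by rw [hD, if_pos rfl], mul_one] at h1
    exact hφ' ((map_eq_zero (algebraMap K L)).1 h1)
  · intro ψ _ hψ
    obtain ⟨a, ha⟩ := Function.ne_iff.1 hψ
    rw [Finset.prod_eq_zero (Finset.mem_univ a), mul_zero]
    rw [hD, if_neg (Ne.symm ha)]
  · intro h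
    exact absurd (Finset.mem_univ φ) h

/-- **Pull-back of sections.** -/
theorem pull_reg [CharZero L] {S : Set K} (hS : S.Finite)
    (htop : IntermediateField.adjoin k S = ⊤) {w : ℕ} (htr : Algebra.trdeg k K = d)
    (htrL : Algebra.trdeg k L = w) (x : Fin d → K) (E : Fin d → Derivation k K K)
    (hx : IsTranscendenceBasis k x) (hE : ∀ i j, E i (x j) = if i = j then 1 else 0)
    (θ : AlternatingMap K (Derivation k K K) K (Fin p)) {N : ℕ} (hN : 0 < N) (f : K)
    (hreg : ∀ P : Place k K, Divisorial d P → ∀ D : Fin p → Derivation k K K,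
      (∀ i, DerReg P (D i)) → P.Reg (f * θ D ^ N))
    (P : Place k L) (hP : Divisorial w P) (D : Fin p → Derivation k L L)
    (hD : ∀ i, DerReg P (D i)) : P.Reg (algebraMap K L f * pull L x E θ D ^ N) := by
  classical
  by_cases htriv : ∃ g : K, P.ord (algebraMap K L g) ≠ 0
  · obtain ⟨e, u, hu⟩ := exists_over (K := K) P htriv
    have hdiv : Divisorial d u := Pool.Agent.W419.PG.main k K L d w u P e htr htrL hu hP
    obtain ⟨z, G, i0, hz, hG, -, hzr, hpres⟩ :=
      Pool.Agent.W240.PG.Frame.main.{0, 0} Pool.Agent.W762.PG.main k K d htr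
        (fun y hy => Pool.Agent.Y216.SV.fd_of_fg hS htop hy) u hdiv
    rw [pull_frame x E hx hE z G hz hG θ D, pull_apply]
    by_cases hf : f = 0
    · rw [hf, map_zero, zero_mul]
      exact Ge.zero
    by_cases h0 : ∀ φ : Fin p → Fin d, θ (fun a => G (φ a)) = 0
    · rw [Finset.sum_eq_zero fun φ _ => by rw [h0 φ, map_zero, zero_mul], zero_pow hN.ne',
        mul_zero]
      exact Ge.zero
    · push Not at h0
      obtain ⟨φ₁, hφ₁⟩ := h0
      obtain ⟨φ₀, hφ₀, hmin⟩ := Finset.exists_min_image
        (Finset.univ.filter fun φ : Fin p → Fin d => θ (fun a => G (φ a)) ≠ 0)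
        (fun φ => u.ord (θ fun a => G (φ a)))
        ⟨φ₁, Finset.mem_filter.2 ⟨Finset.mem_univ _, hφ₁⟩⟩
      have hφ₀' : θ (fun a => G (φ₀ a)) ≠ 0 := (Finset.mem_filter.1 hφ₀).2
      obtain ⟨c, hc⟩ : ∃ c, c = u.ord (θ fun a => G (φ₀ a)) := ⟨_, rfl⟩
      have hterm : ∀ φ : Fin p → Fin d, Ge P (e * c) (algebraMap K L (θ fun a => G (φ a)) *
          ∏ a, D a (algebraMap K L (z (φ a)))) := by
        intro φ
        have h1 : Ge P (e * c) (algebraMap K L (θ fun a => G (φ a))) := by
          by_cases h2 : θ (fun a => G (φ a)) = 0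
          · left; rw [h2, map_zero]
          · right
            rw [hu.2, hc]
            exact mul_le_mul_of_nonneg_left
              (hmin φ (Finset.mem_filter.2 ⟨Finset.mem_univ _, h2⟩)) (by positivity)
        have h3 : Ge P (∑ _a : Fin p, (0 : ℤ)) (∏ a, D a (algebraMap K L (z (φ a)))) :=
          Ge.prod _ _ _ fun a _ => hD a _ (hu.reg.2 (hzr (φ a)))
        rw [Finset.sum_const_zero] at h3
        have h4 := h1.mul h3
        rwa [add_zero] at h4
      have h5 := (Ge.sum Finset.univ _ fun φ _ => hterm φ).pow N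
      have h6 : Ge P (e * u.ord f) (algebraMap K L f) := Or.inr (hu.2 f).ge
      have h7 := h6.mul h5
      refine Ge.mono ?_ h7
      have h8 : 0 ≤ u.ord f + N * c := by
        have h9 := hreg u hdiv (fun a => G (φ₀ a)) fun i => hpres _
        have h10 := h9.resolve_left (mul_ne_zero hf (pow_ne_zero _ hφ₀'))
        rwa [u.ord_mul hf (pow_ne_zero _ hφ₀'), u.ord_pow, ← hc] at h10
      have h11 : (e : ℤ) * u.ord f + N * (e * c) = e * (u.ord f + N * c) := by ring
      rw [h11]
      positivity
  · push Not at htriv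
    rw [pull_apply]
    have h1 : ∀ g : K, Ge P 0 (algebraMap K L g) := fun g => Or.inr (htriv g).ge
    have h2 : Ge P 0 (∑ φ : Fin p → Fin d, algebraMap K L (θ fun a => E (φ a)) *
        ∏ a, D a (algebraMap K L (x (φ a)))) := by
      refine Ge.sum _ _ fun φ _ => ?_
      have h3 : Ge P (∑ _a : Fin p, (0 : ℤ)) (∏ a, D a (algebraMap K L (x (φ a)))) :=
        Ge.prod _ _ _ fun a _ => hD a _ (h1 (x (φ a)))
      rw [Finset.sum_const_zero] at h3
      have h4 := (h1 (θ fun a => E (φ a))).mul h3
      rwa [add_zero] at h4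
    have h5 := (h1 f).mul (h2.pow N)
    rw [mul_zero, add_zero] at h5
    exact h5

end Pool.Agent.U207.PB
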